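import Pool.Agent.Y728.MN.Def

/-!
# Overlaps: three elements, and two pairs (for helper728's project MN)
-/

set_option autoImplicit false

namespace Pool.Agent.Y785.MN

open NumberField IsDedekindDomain Height Finset Pool.Agent.H951R3.V
open Pool.Agent.H691R3 hiding wt
open Pool.Agent.Y728.MN

variable {K : Type} [Field K] [NumberField K]

theorem wt_zr_le (u : K) : wt (zr u) ≤ logHeight₁ u := by
  unfold wt
  by_cases hu : u = 0
  · have h : zr u = ∅ := by
      ext v
      rw [mem_zr]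
      simp [hu]
    rw [h, Finset.sum_empty]
    exact zero_le_logHeight₁ u
  · rw [← logHeight₁_inv']
    refine le_trans (Finset.sum_le_sum fun v hv => ?_) (sum_posLog_le (inv_ne_zero hu) (zr u))
    rw [mem_zr] at hv
    obtain ⟨n, hn⟩ := fv_zpow v hu
    have hlog : Real.log (fv v u) = n * ell v := by rw [hn, Real.log_zpow]; rfl
    have hlt : Real.log (fv v u) < 0 := Real.log_neg ((fv v).pos hu) hv.2
    have hn1 : n ≤ -1 := by
      by_contra hc
      have h0 : (0 : ℝ) ≤ n := by exact_mod_cast (by omega : (0 : ℤ) ≤ n)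
      have h2 := mul_nonneg h0 (ell_pos v).le
      linarith
    have h1 : ell v ≤ Real.log (fv v u⁻¹) := by
      rw [map_inv₀, Real.log_inv, hlog]
      have h3 : (n : ℝ) ≤ -1 := by exact_mod_cast hn1
      nlinarith [ell_pos v]
    exact h1.trans (le_max_right _ _)

theorem wt_zr_div_le {x y : K} {Y : ℝ} (hx : logHeight₁ x ≤ Y) (hy : logHeight₁ y ≤ Y) :
    wt (zr (x / y - 1)) ≤ 2 * Y + (totalWeight K : ℝ) * Real.log 2 := by
  have h1 := wt_zr_le (x / y - 1)
  have h2 := logHeight₁_sub_le (x / y) 1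
  have h3 := logHeight₁_mul_le x y⁻¹
  rw [logHeight₁_one] at h2
  rw [logHeight₁_inv', ← div_eq_mul_inv] at h3
  linarith

theorem card_le_fib {ι α : Type*} [DecidableEq α] (E : Finset ι) (f : ι → α) (B : ℝ)
    (h : ∀ a ∈ E.image f, ((E.filter (fun e => f e = a)).card : ℝ) ≤ B) :
    (E.card : ℝ) ≤ ((E.image f).card : ℝ) * B := by
  rw [Finset.card_eq_sum_card_image f E]
  push_cast
  refine (Finset.sum_le_sum h).trans ?_
  rw [Finset.sum_const, nsmul_eq_mul]

open Classical in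
theorem card_le_sub {ι : Type*} (Q : Finset ι) (F : Finset (HeightOneSpectrum (𝓞 K)))
    (G : ι → Finset (HeightOneSpectrum (𝓞 K))) (T B : ℝ) (hB : 0 ≤ B)
    (hT : ∀ q ∈ Q, T ≤ wt (F ∩ G q))
    (h : ∀ g : Finset (HeightOneSpectrum (𝓞 K)), T ≤ wt g →
      ((Q.filter (fun q => g ⊆ G q)).card : ℝ) ≤ B) :
    (Q.card : ℝ) ≤ 2 ^ F.card * B := by
  refine (card_le_fib Q (fun q => F ∩ G q) B ?_).trans ?_
  · intro g hg
    obtain ⟨q, hq, rfl⟩ := Finset.mem_image.1 hg
    refine le_trans ?_ (h (F ∩ G q) (hT q hq))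
    rw [Nat.cast_le]
    refine Finset.card_le_card fun e he => ?_
    rw [Finset.mem_filter] at he ⊢
    refine ⟨he.1, ?_⟩
    rw [← he.2]
    exact Finset.inter_subset_right
  · refine mul_le_mul_of_nonneg_right ?_ hB
    have h1 : (Q.image (fun q => F ∩ G q)) ⊆ F.powerset := by
      intro g hg
      obtain ⟨q, hq, rfl⟩ := Finset.mem_image.1 hg
      exact Finset.mem_powerset.2 Finset.inter_subset_left
    have h2 := Finset.card_le_card h1
    rw [Finset.card_powerset] at h2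
    exact_mod_cast h2

theorem card_pairs (hH : StmtH K) {d : ℝ} (hd : 0 < d) : ∃ C : ℝ, 0 < C ∧
    ∀ Y : ℝ, 0 ≤ Y → ∀ P : Finset (K × K),
      (∀ p ∈ P, logHeight₁ p.1 ≤ Y ∧ logHeight₁ p.2 ≤ Y) →
      (P.card : ℝ) ≤ C * Real.exp ((4 + 2 * d) * Y) := by
  classical
  obtain ⟨C, hC, h⟩ := hH d hd
  refine ⟨C * C, by positivity, fun Y hY P hP => ?_⟩
  have h1 : P ⊆ (P.image Prod.fst) ×ˢ (P.image Prod.snd) := Finset.subset_product
  have h2 := Finset.card_le_card h1
  rw [Finset.card_product] at h2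
  have h3 := h Y hY (P.image Prod.fst) (by
    intro x hx
    obtain ⟨p, hp, rfl⟩ := Finset.mem_image.1 hx
    exact (hP p hp).1)
  have h4 := h Y hY (P.image Prod.snd) (by
    intro x hx
    obtain ⟨p, hp, rfl⟩ := Finset.mem_image.1 hx
    exact (hP p hp).2)
  calc (P.card : ℝ) ≤ ((P.image Prod.fst).card : ℝ) * ((P.image Prod.snd).card : ℝ) := by
        exact_mod_cast h2
    _ ≤ (C * Real.exp ((2 + d) * Y)) * (C * Real.exp ((2 + d) * Y)) :=
        mul_le_mul h3 h4 (by positivity) (by positivity)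
    _ = C * C * Real.exp ((4 + 2 * d) * Y) := by
        rw [mul_mul_mul_comm, ← Real.exp_add]
        congr 2
        ring

open Classical in
/-- MG4. -/
theorem sG4 : StmtC K → StmtF K → StmtH K → StmtG4 K := by
  intro hC hF hH δ hδ
  obtain ⟨C1, hC1, h1⟩ := hC (δ / 10) (by positivity)
  obtain ⟨C2, hC2, h2⟩ := hF (δ / 10) (by positivity)
  obtain ⟨C3, hC3, h3⟩ := card_pairs hH (d := δ / 10) (by positivity)
  obtain ⟨c, hc⟩ : ∃ c : ℝ, c = (totalWeight K : ℝ) * Real.log 2 := ⟨_, rfl⟩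
  refine ⟨δ / 2, C3 * (C2 * Real.exp (δ / 10 * c) * C1), by positivity, by positivity,
    fun Y hY E hE => ?_⟩
  have h4 := card_le_fib E Prod.fst
    (C2 * Real.exp (δ / 10 * (2 * Y + c)) * (C1 * Real.exp ((4 + δ / 10 - δ) * Y))) ?_
  · have h5 := h3 Y hY (E.image Prod.fst) (by
      intro x hx
      obtain ⟨p, hp, rfl⟩ := Finset.mem_image.1 hx
      have h6 := hE p hp
      exact ⟨h6.2.2.1, h6.2.2.2.1⟩)
    refine h4.trans ((mul_le_mul_of_nonneg_right h5 (by positivity)).trans (le_of_eq ?_))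
    have e : Real.exp ((8 - δ / 2) * Y) * Real.exp (δ / 10 * c) =
        Real.exp ((4 + 2 * (δ / 10)) * Y) * Real.exp (δ / 10 * (2 * Y + c)) *
          Real.exp ((4 + δ / 10 - δ) * Y) := by
      rw [← Real.exp_add, ← Real.exp_add, ← Real.exp_add]
      congr 1
      ring
    linear_combination (-(C3 * C2 * C1)) * e
  · intro p hp
    obtain ⟨q₀, hq₀, hq₀p⟩ := Finset.mem_image.1 hp
    have h5 := hE q₀ hq₀
    rw [hq₀p] at h5
    refine (card_le_sub (E.filter (fun e => e.1 = p)) (zr (p.1 / p.2 - 1))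
      (fun q => zr (q.2.1 / q.2.2 - 1)) (δ * Y) (C1 * Real.exp ((4 + δ / 10 - δ) * Y))
      (by positivity) ?_ ?_).trans ?_
    · intro q hq
      rw [Finset.mem_filter] at hq
      have h6 := (hE q hq.1).2.2.2.2.2.2
      rw [hq.2] at h6
      exact h6
    · intro g hg
      have hinj : Set.InjOn (Prod.snd : (K × K) × (K × K) → K × K)
          ((E.filter (fun e => e.1 = p)).filter (fun q => g ⊆ zr (q.2.1 / q.2.2 - 1)) :
            Finset ((K × K) × (K × K))) := by
        intro a ha b hb hab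
        rw [Finset.mem_coe, Finset.mem_filter, Finset.mem_filter] at ha hb
        exact Prod.ext (ha.1.2.trans hb.1.2.symm) hab
      rw [← Finset.card_image_of_injOn hinj]
      refine (h1 Y hY g _ ?_).trans ?_
      · intro a ha
        obtain ⟨q, hq, rfl⟩ := Finset.mem_image.1 ha
        rw [Finset.mem_filter, Finset.mem_filter] at hq
        have h6 := hE q hq.1.1
        exact ⟨h6.2.1.1, h6.2.1.2.1, h6.2.1.2.2, h6.2.2.2.2.1, h6.2.2.2.2.2.1, hq.2⟩
      · refine mul_le_mul_of_nonneg_left (Real.exp_le_exp.2 ?_) hC1.le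
        linarith
    · refine mul_le_mul_of_nonneg_right ((h2 _).trans ?_) (by positivity)
      refine mul_le_mul_of_nonneg_left (Real.exp_le_exp.2 ?_) hC2.le
      refine mul_le_mul_of_nonneg_left ?_ (by positivity)
      rw [hc]
      exact wt_zr_div_le h5.2.2.1 h5.2.2.2.1

/-- Elements which are congruent to the same element are congruent. -/
theorem sub_zr {x z z' : K} (hx : x ≠ 0) (hz : z ≠ 0) (hz' : z' ≠ 0) (hzz : z ≠ z')
    {g : Finset (HeightOneSpectrum (𝓞 K))} (h : g ⊆ zr (x / z - 1)) (h' : g ⊆ zr (x / z' - 1)) :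
    g ⊆ zr (z / z' - 1) := by
  intro v hv
  have h1 := (mem_zr.1 (h hv)).2
  have h2 := (mem_zr.1 (h' hv)).2
  rw [mem_zr]
  refine ⟨?_, ?_⟩
  · rw [sub_ne_zero, Ne, div_eq_one_iff_eq hz']
    exact hzz
  · have e : z / z' - 1 = ((x / z' - 1) + -(x / z - 1)) / (x / z) := by
      field_simp
      ring
    have h3 : fv v ((x / z' - 1) + -(x / z - 1)) < 1 := by
      refine lt_of_le_of_lt (fv_na v _ _) (max_lt h2 ?_)
      rw [(fv v).map_neg]
      exact h1
    have h4 : 1 ≤ fv v (x / z) := by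
      by_contra hc
      rw [not_le] at hc
      have h5 : (1 : K) = x / z + -(x / z - 1) := by ring
      have h6 : fv v (1 : K) < 1 := by
        rw [h5]
        refine lt_of_le_of_lt (fv_na v _ _) (max_lt hc ?_)
        rw [(fv v).map_neg]
        exact h1
      rw [(fv v).map_one] at h6
      exact lt_irrefl _ h6
    rw [e, map_div₀]
    calc fv v ((x / z' - 1) + -(x / z - 1)) / fv v (x / z)
        ≤ fv v ((x / z' - 1) + -(x / z - 1)) / 1 :=
          div_le_div_of_nonneg_left ((fv v).nonneg _) one_pos h4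
      _ < 1 := by rw [div_one]; exact h3

open Classical in
/-- MG3. -/
theorem sG3 : StmtC K → StmtF K → StmtH K → StmtG3 K := by
  intro hC hF hH δ hδ
  obtain ⟨m, hm⟩ : ∃ m : ℝ, m = min δ 1 := ⟨_, rfl⟩
  have hm0 : 0 < m := by rw [hm]; exact lt_min hδ one_pos
  have hm1 : m ≤ 1 := by rw [hm]; exact min_le_right _ _
  have hmδ : m ≤ δ := by rw [hm]; exact min_le_left _ _
  obtain ⟨C1, hC1, h1⟩ := hC (m / 20) (by positivity)
  obtain ⟨C2, hC2, h2⟩ := hF (m / 20) (by positivity)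
  obtain ⟨C3, hC3, h3⟩ := card_pairs hH (d := m / 20) (by positivity)
  obtain ⟨c, hc⟩ : ∃ c : ℝ, c = (totalWeight K : ℝ) * Real.log 2 := ⟨_, rfl⟩
  refine ⟨m / 4, C3 * (C2 * Real.exp (m / 20 * c) * (1 + Real.sqrt C1)), by positivity,
    by positivity, fun Y hY E hE => ?_⟩
  have h4 := card_le_fib E (fun e => (e.1, e.2.1))
    (C2 * Real.exp (m / 20 * (2 * Y + c)) *
      (1 + Real.sqrt C1 * Real.exp ((4 + m / 20 - δ) * Y / 2))) ?_
  · have h5 := h3 Y hY (E.image (fun e => (e.1, e.2.1))) (by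
      intro x hx
      obtain ⟨p, hp, rfl⟩ := Finset.mem_image.1 hx
      have h6 := hE p hp
      exact ⟨h6.2.2.2.2.2.2.1, h6.2.2.2.2.2.2.2.1⟩)
    refine h4.trans ((mul_le_mul_of_nonneg_right h5 (by positivity)).trans ?_)
    have e1 : Real.exp ((4 + 2 * (m / 20)) * Y) * Real.exp (m / 20 * (2 * Y + c)) ≤
        Real.exp (m / 20 * c) * Real.exp ((6 - m / 4) * Y) := by
      rw [← Real.exp_add, ← Real.exp_add, Real.exp_le_exp]
      nlinarith
    have e2 : Real.exp ((4 + 2 * (m / 20)) * Y) * Real.exp (m / 20 * (2 * Y + c)) *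
        Real.exp ((4 + m / 20 - δ) * Y / 2) ≤
        Real.exp (m / 20 * c) * Real.exp ((6 - m / 4) * Y) := by
      rw [← Real.exp_add, ← Real.exp_add, ← Real.exp_add, Real.exp_le_exp]
      nlinarith
    have e3 := mul_le_mul_of_nonneg_left e2 (Real.sqrt_nonneg C1)
    have e4 : 0 ≤ C3 * C2 := by positivity
    calc C3 * Real.exp ((4 + 2 * (m / 20)) * Y) * (C2 * Real.exp (m / 20 * (2 * Y + c)) *
          (1 + Real.sqrt C1 * Real.exp ((4 + m / 20 - δ) * Y / 2)))
        = C3 * C2 * (Real.exp ((4 + 2 * (m / 20)) * Y) * Real.exp (m / 20 * (2 * Y + c)) +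
            Real.sqrt C1 * (Real.exp ((4 + 2 * (m / 20)) * Y) *
              Real.exp (m / 20 * (2 * Y + c)) * Real.exp ((4 + m / 20 - δ) * Y / 2))) := by ring
      _ ≤ C3 * C2 * (Real.exp (m / 20 * c) * Real.exp ((6 - m / 4) * Y) +
            Real.sqrt C1 * (Real.exp (m / 20 * c) * Real.exp ((6 - m / 4) * Y))) :=
          mul_le_mul_of_nonneg_left (add_le_add e1 e3) e4
      _ = _ := by ring
  · intro p hp
    obtain ⟨q₀, hq₀, hq₀p⟩ := Finset.mem_image.1 hp
    have h5 := hE q₀ hq₀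
    have h5a : q₀.1 = p.1 := congrArg Prod.fst hq₀p
    have h5b : q₀.2.1 = p.2 := congrArg Prod.snd hq₀p
    rw [h5a, h5b] at h5
    refine (card_le_sub (E.filter (fun e => (e.1, e.2.1) = p)) (zr (p.1 / p.2 - 1))
      (fun q => zr (p.1 / q.2.2 - 1)) (δ * Y)
      (1 + Real.sqrt C1 * Real.exp ((4 + m / 20 - δ) * Y / 2))
      (by positivity) ?_ ?_).trans ?_
    · intro q hq
      rw [Finset.mem_filter] at hq
      have h6 := (hE q hq.1).2.2.2.2.2.2.2.2.2
      have h7 : q.1 = p.1 := congrArg Prod.fst hq.2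
      have h8 : q.2.1 = p.2 := congrArg Prod.snd hq.2
      rw [h7, h8] at h6
      exact h6
    · intro g hg
      obtain ⟨Q, hQ⟩ : ∃ Q : Finset (K × K × K), Q = (E.filter (fun e => (e.1, e.2.1) = p)).filter
        (fun q => g ⊆ zr (p.1 / q.2.2 - 1)) := ⟨_, rfl⟩
      rw [← hQ]
      have hmem : ∀ q ∈ Q, q ∈ E ∧ q.1 = p.1 ∧ q.2.1 = p.2 ∧ g ⊆ zr (p.1 / q.2.2 - 1) := by
        intro q hq
        rw [hQ, Finset.mem_filter, Finset.mem_filter] at hq
        exact ⟨hq.1.1, congrArg Prod.fst hq.1.2, congrArg Prod.snd hq.1.2, hq.2⟩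
      have hinj : Set.InjOn (fun e : K × K × K => e.2.2) (Q : Set (K × K × K)) := by
        intro a ha b hb hab
        have ha' := hmem a ha
        have hb' := hmem b hb
        exact Prod.ext (ha'.2.1.trans hb'.2.1.symm)
          (Prod.ext (ha'.2.2.1.trans hb'.2.2.1.symm) hab)
      rw [← Finset.card_image_of_injOn hinj]
      obtain ⟨Z, hZ⟩ : ∃ Z : Finset K, Z = Q.image (fun e : K × K × K => e.2.2) := ⟨_, rfl⟩
      rw [← hZ]
      have hZm : ∀ z ∈ Z, z ≠ 0 ∧ logHeight₁ z ≤ Y ∧ g ⊆ zr (p.1 / z - 1) := by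
        intro z hz
        rw [hZ] at hz
        obtain ⟨q, hq, rfl⟩ := Finset.mem_image.1 hz
        have h6 := hmem q hq
        have h7 := hE q h6.1
        exact ⟨h7.2.2.1, h7.2.2.2.2.2.2.2.2.1, h6.2.2.2⟩
      have h6 : (Z.offDiag.card : ℝ) ≤ C1 * Real.exp ((4 + m / 20) * Y - wt g) := by
        refine h1 Y hY g Z.offDiag ?_
        rintro ⟨z, z'⟩ hzz
        rw [Finset.mem_offDiag] at hzz
        obtain ⟨hz, hz', hne⟩ := hzz
        exact ⟨(hZm z hz).1, (hZm z' hz').1, hne, (hZm z hz).2.1, (hZm z' hz').2.1,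
          sub_zr h5.1 (hZm z hz).1 (hZm z' hz').1 hne (hZm z hz).2.2 (hZm z' hz').2.2⟩
      have h7 : C1 * Real.exp ((4 + m / 20) * Y - wt g) ≤
          (Real.sqrt C1 * Real.exp ((4 + m / 20 - δ) * Y / 2)) ^ 2 := by
        rw [mul_pow, Real.sq_sqrt hC1.le, ← Real.exp_nat_mul]
        refine mul_le_mul_of_nonneg_left (Real.exp_le_exp.2 ?_) hC1.le
        push_cast
        linarith
      rw [Finset.offDiag_card] at h6
      have h8 : ((Z.card * Z.card - Z.card : ℕ) : ℝ) = (Z.card : ℝ) * Z.card - Z.card := by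
        rw [Nat.cast_sub (Nat.le_mul_self _)]
        push_cast
        rfl
      rw [h8] at h6
      have h9 : 0 ≤ Real.sqrt C1 * Real.exp ((4 + m / 20 - δ) * Y / 2) := by positivity
      by_contra hcon
      rw [not_le] at hcon
      nlinarith
    · refine mul_le_mul_of_nonneg_right ((h2 _).trans ?_) (by positivity)
      refine mul_le_mul_of_nonneg_left (Real.exp_le_exp.2 ?_) hC2.le
      refine mul_le_mul_of_nonneg_left ?_ (by positivity)
      rw [hc]
      exact wt_zr_div_le h5.2.2.2.2.2.2.1 h5.2.2.2.2.2.2.2.1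

end Pool.Agent.Y785.MN
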